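import Pool.Agent.Work.MP_156639_an.Basic
import Pool.Agent.Work.MP_156639_an.Interface

/-!
# MP_156639_an : blocks ALT, CV, BdLim, FL
-/

set_option autoImplicit false

open scoped BigOperators
open Filter Topology

namespace Pool.Agent.MP156639

/-! ## Alternating sums of monotone sequences -/

lemma alt_mono_bound (a : ℕ → ℝ) (h0 : ∀ i, 0 ≤ a i) (ha : Monotone a) (K : ℕ) :
    0 ≤ (-1 : ℝ) ^ K * ∑ i ∈ Finset.range (K + 1), (-1 : ℝ) ^ i * a i ∧
      (-1 : ℝ) ^ K * ∑ i ∈ Finset.range (K + 1), (-1 : ℝ) ^ i * a i ≤ a K := by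
  induction K with
  | zero => simp [h0 0]
  | succ K ih =>
    have e : (-1 : ℝ) ^ (K + 1) * ∑ i ∈ Finset.range (K + 1 + 1), (-1 : ℝ) ^ i * a i =
        a (K + 1) - (-1 : ℝ) ^ K * ∑ i ∈ Finset.range (K + 1), (-1 : ℝ) ^ i * a i := by
      rw [Finset.sum_range_succ _ (K + 1), mul_add, ← mul_assoc, ← pow_add, pow_succ]
      have : (-1 : ℝ) ^ (K + 1 + (K + 1)) = 1 := by
        rw [← two_mul, pow_mul]; norm_num
      rw [this]; ring
    rw [e]
    have := ha (Nat.le_succ K)
    constructor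
    · linarith [ih.2]
    · linarith [ih.1]

lemma alt_mono_abs (a : ℕ → ℝ) (h0 : ∀ i, 0 ≤ a i) (ha : Monotone a) (h1 : ∀ i, a i ≤ 1) (K : ℕ) :
    |∑ i ∈ Finset.range K, (-1 : ℝ) ^ i * a i| ≤ 1 := by
  cases K with
  | zero => simp
  | succ K =>
    obtain ⟨h2, h3⟩ := alt_mono_bound a h0 ha K
    have h4 : |(-1 : ℝ) ^ K * ∑ i ∈ Finset.range (K + 1), (-1 : ℝ) ^ i * a i| ≤ 1 := by
      rw [abs_of_nonneg h2]
      exact h3.trans (h1 K)
    rw [abs_mul, abs_pow, abs_neg, abs_one, one_pow, one_mul] at h4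
    exact h4

lemma ind_nonneg (k m : ℕ) : 0 ≤ ind k m := by unfold ind; split_ifs <;> norm_num

lemma ind_le_one (k m : ℕ) : ind k m ≤ 1 := by unfold ind; split_ifs <;> norm_num

lemma ind_mono {k k' : ℕ} (h : k ≤ k') (m : ℕ) : ind k m ≤ ind k' m := by
  unfold ind
  split_ifs with h1 h2
  · exact le_refl _
  · exact absurd (lt_of_lt_of_le h1 h) h2
  · exact zero_le_one
  · exact le_refl _

lemma TVle_sum (K : ℕ) (V : ℝ) (x : ℕ → ℕ → ℝ) (h : ∀ i, TVle V (x i)) :
    TVle ((K : ℝ) * V) (fun m => ∑ i ∈ Finset.range K, x i m) := by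
  induction K with
  | zero => simpa using TVle.const 0
  | succ K ih =>
    have := ih.add (h K)
    simp only [Finset.sum_range_succ]
    refine this.mono ?_
    push_cast
    linarith

section
variable {Ω : Type} [LinearOrder Ω] {D : LD Ω}
variable {Y : Type} [NormedAddCommGroup Y] [NormedSpace ℝ Y] {val : Y →ₗ[ℝ] (Pt Ω → ℝ)}

lemma nice_nonneg_of {C : ℝ} {ψ : Vx Ω → ℝ} (h : D.Nice C ψ) (v : Vx Ω) : 0 ≤ C :=
  (abs_nonneg _).trans (h.pt v)

end

theorem stmt_ALT (hBT : Stmt_BT) : Stmt_ALT := by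
  intro Ω _ D Y _ _ val hval C ψ hC hψ e he n hn k hk
  apply hval.le _ _ (by have := one_le_Rp n; positivity)
  set x : ℕ → ℝ := fun m => ∑ i ∈ Finset.range (Kn n), (-1 : ℝ) ^ i * ind (k i) m with hx
  have hvalx : val (altsum e k (Kn n)) = tens ψ x := by
    funext p
    rw [val_altsum]
    simp only [hx, tens]
    rw [Finset.mul_sum]
    apply Finset.sum_congr rfl
    intro i _
    rw [he (k i)]
    unfold tens
    ring
  rw [hvalx]
  have hxabs : ∀ m, |x m| ≤ 1 := by
    intro m
    exact alt_mono_abs (fun i => ind (k i) m) (fun i => ind_nonneg _ _)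
      (fun i j hij => ind_mono (hk.monotone hij) m) (fun i => ind_le_one _ _) _
  have hxV : TVle ((Kn n : ℝ)) x := by
    have := TVle_sum (Kn n) 1 (fun i m => (-1 : ℝ) ^ i * ind (k i) m) (by
      intro i
      have h := (TVle_ind (k i)).smul ((-1 : ℝ) ^ i)
      rwa [abs_pow, abs_neg, abs_one, one_pow, one_mul] at h)
    rwa [mul_one] at this
  refine hBT Ω D C (Kn n) (2 * C * (Rp n : ℝ)) ψ x hψ hxabs hxV ?_ ?_
  · have := one_le_Rp n
    nlinarith
  · intro n' c' hc'
    rcases lt_trichotomy n' n with h | h | h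
    · right; right
      have := Kn_le_Rp h
      calc 2 * C * (Kn n' : ℝ) ≤ 2 * C * ((Rp n : ℝ) * (th n' : ℝ)) :=
            mul_le_mul_of_nonneg_left this (by positivity)
        _ = _ := by ring
    · subst h
      rcases hn with hn | ⟨c, hc, hv⟩
      · rw [hn] at hc'; simp at hc'
      · rw [hc] at hc'
        have : c = c' := by simpa using hc'
        subst this
        exact Or.inl hv
    · right; left
      have h1 := Kn_le_th_real h
      have h2 := one_le_Rp n
      have h3 : (0 : ℝ) ≤ (th n' : ℝ) := by positivity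
      calc C * (Kn n : ℝ) ≤ C * (th n' : ℝ) := mul_le_mul_of_nonneg_left h1 hC
        _ ≤ 2 * C * (Rp n : ℝ) * (th n' : ℝ) := by
            apply mul_le_mul_of_nonneg_right _ h3
            nlinarith

/-- a sequence which is not Cauchy has large jumps along a subsequence -/
lemma exists_jumps (a : ℕ → ℝ) (h : ¬ CauchySeq a) :
    ∃ δ > 0, ∃ ms : ℕ → ℕ, StrictMono ms ∧ ∀ i, δ ≤ |a (ms (i + 1)) - a (ms i)| := by
  rw [Metric.cauchySeq_iff'] at h
  push Not at h
  obtain ⟨δ, hδ, h⟩ := h
  choose nx hnx1 hnx2 using h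
  refine ⟨δ, hδ, fun i => nx^[i] 0, ?_, ?_⟩
  · apply strictMono_nat_of_lt_succ
    intro i
    simp only [Function.iterate_succ_apply']
    set N := nx^[i] 0
    rcases lt_or_eq_of_le (hnx1 N) with h1 | h1
    · exact h1
    · exfalso
      have := hnx2 N
      rw [← h1, dist_self] at this
      linarith
  · intro i
    simp only [Function.iterate_succ_apply']
    have := hnx2 (nx^[i] 0)
    rwa [Real.dist_eq] at this

theorem stmt_CV (hNice : Stmt_Nice) (hBT : Stmt_BT) : Stmt_CV := by
  intro Ω _ D Y _ _ val hval ψ hψ e he T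
  obtain ⟨C, hC, hN⟩ := hNice Ω D ψ hψ
  suffices h : ∀ p, CauchySeq (fun k => val (T (e k)) p) by
    choose z hz using fun p => cauchySeq_tendsto_of_complete (h p)
    exact ⟨z, hz⟩
  intro p
  by_contra hcon
  obtain ⟨δ, hδ, ms, hms, hjump⟩ := exists_jumps _ hcon
  have key : ∀ n : ℕ, (th n : ℝ) * δ ≤ ‖T‖ * (2 * C) := by
    intro n
    set ε : ℕ → ℝ := fun i => if 0 ≤ val (T (e (ms (i + 1)))) p - val (T (e (ms i))) p then 1
      else -1 with hε
    have hεabs : ∀ i, |ε i| = 1 := by
      intro i; simp only [hε]; split_ifs <;> simp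
    set w : Y := ∑ i ∈ Finset.range (Kn n), ε i • (e (ms (i + 1)) - e (ms i)) with hw
    set x : ℕ → ℝ := fun m => ∑ i ∈ Finset.range (Kn n), ε i * (ind (ms (i + 1)) m - ind (ms i) m)
      with hx
    have hvalw : val w = tens ψ x := by
      funext q
      rw [hw, map_sum, Finset.sum_apply]
      simp only [hx, tens]
      rw [Finset.mul_sum]
      apply Finset.sum_congr rfl
      intro i _
      rw [map_smul, map_sub, he, he]
      simp only [Pi.smul_apply, Pi.sub_apply, smul_eq_mul, tens]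
      ring
    have hxabs : ∀ m, |x m| ≤ 1 := by
      intro m
      calc |x m| ≤ ∑ i ∈ Finset.range (Kn n), |ε i * (ind (ms (i + 1)) m - ind (ms i) m)| :=
            Finset.abs_sum_le_sum_abs _ _
        _ = ∑ i ∈ Finset.range (Kn n), (ind (ms (i + 1)) m - ind (ms i) m) := by
            apply Finset.sum_congr rfl
            intro i _
            rw [abs_mul, hεabs, one_mul, abs_of_nonneg]
            exact sub_nonneg.2 (ind_mono (hms (Nat.lt_succ_self i)).le m)
        _ = ind (ms (Kn n)) m - ind (ms 0) m :=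
            Finset.sum_range_sub (fun i => ind (ms i) m) _
        _ ≤ 1 := by linarith [ind_le_one (ms (Kn n)) m, ind_nonneg (ms 0) m]
    have hxV : TVle ((Kn n : ℝ) * 2) x := by
      apply TVle_sum (Kn n) 2 (fun i m => ε i * (ind (ms (i + 1)) m - ind (ms i) m))
      intro i
      have h1 := ((TVle_ind (ms (i + 1))).add ((TVle_ind (ms i)).smul (-1))).smul (ε i)
      rw [hεabs] at h1
      have h2 : (fun m => ε i * (ind (ms (i + 1)) m + -1 * ind (ms i) m)) =
          fun m => ε i * (ind (ms (i + 1)) m - ind (ms i) m) := by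
        funext m; ring
      rw [h2] at h1
      exact h1.mono (by norm_num)
    have hwnorm : ‖w‖ ≤ 2 * C * (Rn n : ℝ) := by
      have hRn := one_le_Rn n
      apply hval.le _ _ (by positivity)
      rw [hvalw]
      refine hBT Ω D C ((Kn n : ℝ) * 2) (2 * C * (Rn n : ℝ)) ψ x hN hxabs hxV ?_ ?_
      · nlinarith
      · intro n' c' _
        right
        rcases le_or_gt n' n with h | h
        · right
          rw [Kn_eq_real n']
          have h1 : (Rn n' : ℝ) ≤ (Rn n : ℝ) := by exact_mod_cast Rn_mono h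
          have h2 : (0 : ℝ) ≤ 2 * C * (th n' : ℝ) := by positivity
          nlinarith [mul_le_mul_of_nonneg_left h1 h2]
        · left
          have h1 := Kn_le_th_real h
          have h3 : (0 : ℝ) ≤ (th n' : ℝ) := by positivity
          calc C * ((Kn n : ℝ) * 2) ≤ C * ((th n' : ℝ) * 2) := by gcongr
            _ ≤ 2 * C * (Rn n : ℝ) * (th n' : ℝ) := by
                have : C * ((th n' : ℝ) * 2) = 2 * C * 1 * (th n' : ℝ) := by ring
                rw [this]
                gcongr
    have hlow : (Kn n : ℝ) * δ ≤ ‖T‖ * (2 * C * (Rn n : ℝ)) := by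
      calc (Kn n : ℝ) * δ = ∑ i ∈ Finset.range (Kn n), δ := by simp
        _ ≤ ∑ i ∈ Finset.range (Kn n),
              ε i * (val (T (e (ms (i + 1)))) p - val (T (e (ms i))) p) := by
            apply Finset.sum_le_sum
            intro i _
            refine (hjump i).trans (le_of_eq ?_)
            simp only [hε]
            split_ifs with h
            · rw [one_mul, abs_of_nonneg h]
            · rw [abs_of_neg (not_le.1 h)]; ring
        _ = val (T w) p := by
            rw [hw, map_sum, map_sum, Finset.sum_apply]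
            apply Finset.sum_congr rfl
            intro i _
            rw [map_smul, map_smul, map_sub, map_sub]
            simp only [Pi.smul_apply, Pi.sub_apply, smul_eq_mul]
        _ ≤ ‖T w‖ := (le_abs_self _).trans (hval.abs_le _ _)
        _ ≤ ‖T‖ * ‖w‖ := T.le_opNorm w
        _ ≤ ‖T‖ * (2 * C * (Rn n : ℝ)) := mul_le_mul_of_nonneg_left hwnorm (norm_nonneg _)
    rw [Kn_eq_real] at hlow
    have hRn := one_le_Rn n
    have hRn0 : (0 : ℝ) < (Rn n : ℝ) := by linarith
    have h5 : ((th n : ℝ) * δ) * (Rn n : ℝ) ≤ (‖T‖ * (2 * C)) * (Rn n : ℝ) := by nlinarith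
    exact le_of_mul_le_mul_right h5 hRn0
  obtain ⟨n, hn⟩ := (th_tendsto.eventually_gt_atTop (‖T‖ * (2 * C) / δ)).exists
  rw [div_lt_iff₀ hδ] at hn
  linarith [key n]

theorem stmt_BdLim : Stmt_BdLim := by
  intro Ω _ D Y _ _ val hval y z hz C hC
  exact LD.Bd.lim (fun k => (hval.bd (y k)).mono (hC k)) hz

/-- every vertex is in some class -/
lemma exists_class {Ω : Type} [LinearOrder Ω] (D : LD Ω) (v : Vx Ω) : ∃ c, v ∈ D.A c := by
  obtain ⟨c, hc, -⟩ := D.sep1 v (v.1 + 1, v.2) (by
    intro h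
    have := congrArg Prod.fst h
    simp only at this
    omega)
  exact ⟨c, hc⟩

theorem stmt_FL : Stmt_FL := by
  intro Ω _ D C z hz v
  suffices h : CauchySeq (fun m => z (v, m)) by
    exact cauchySeq_tendsto_of_complete h
  by_contra hcon
  obtain ⟨δ, hδ, ms, hms, hjump⟩ := exists_jumps _ hcon
  obtain ⟨c, hc⟩ := exists_class D v
  obtain ⟨n₁, hn₁⟩ := exists_nat_gt (C / δ)
  obtain ⟨n, hn, hlab⟩ := label_inf (some c) (max n₁ (D.depv v))
  have h1 := hz.fib n c hlab v hc ((le_max_right _ _).trans hn) ms hms.monotone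
  have h2 : (Kn n : ℝ) * δ ≤ C * (th n : ℝ) := by
    refine le_trans ?_ h1
    calc (Kn n : ℝ) * δ = ∑ i ∈ Finset.range (Kn n), δ := by simp
      _ ≤ _ := Finset.sum_le_sum fun i _ => hjump i
  rw [Kn_eq_real] at h2
  have hth := one_le_th n
  have h3 : (Rn n : ℝ) * δ ≤ C := by
    have h5 : ((Rn n : ℝ) * δ) * (th n : ℝ) ≤ C * (th n : ℝ) := by nlinarith
    exact le_of_mul_le_mul_right h5 (by linarith)
  have h4 : (n : ℝ) ≤ (Rn n : ℝ) := by
    have : n ≤ Rn n := (Nat.le_succ n).trans (Nat.self_le_factorial _)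
    exact_mod_cast this
  have h5 : (n₁ : ℝ) ≤ (n : ℝ) := by exact_mod_cast (le_max_left _ _).trans hn
  rw [div_lt_iff₀ hδ] at hn₁
  nlinarith

end Pool.Agent.MP156639
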