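import Pool.Agent.Work.MP_156639_an.Basic
import Pool.Agent.Work.MP_156639_an.Interface

/-!
# MP_156639_an : block Hat
-/

set_option autoImplicit false

open scoped BigOperators
open Filter Topology

namespace Pool.Agent.MP156639

/-- the hat function of width `N + 1` at `l` -/
noncomputable def hat (N l l' : ℕ) : ℝ := max (1 - |(l' : ℝ) - (l : ℝ)| / ((N : ℝ) + 1)) 0

lemma hat_nonneg (N l l' : ℕ) : 0 ≤ hat N l l' := le_max_right _ _

lemma hat_le_one (N l l' : ℕ) : hat N l l' ≤ 1 := by
  unfold hat
  apply max_le _ zero_le_one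
  have : 0 ≤ |(l' : ℝ) - (l : ℝ)| / ((N : ℝ) + 1) := by positivity
  linarith

lemma hat_self (N l : ℕ) : hat N l l = 1 := by
  unfold hat; simp

lemma hat_succ (N l : ℕ) : hat N l (l + 1) = 1 - 1 / ((N : ℝ) + 1) := by
  unfold hat
  have h : |((l + 1 : ℕ) : ℝ) - (l : ℝ)| = 1 := by
    push_cast
    rw [add_sub_cancel_left, abs_one]
  rw [h, max_eq_left]
  have : 1 / ((N : ℝ) + 1) ≤ 1 := by
    rw [div_le_one (by positivity)]
    linarith [(Nat.cast_nonneg N : (0 : ℝ) ≤ N)]
  linarith

lemma hat_link (N l l' : ℕ) : ((N : ℝ) + 1) * |hat N l l' - hat N l (l' + 1)| ≤ 1 := by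
  have hW : (0 : ℝ) < (N : ℝ) + 1 := by positivity
  have h1 : |hat N l l' - hat N l (l' + 1)| ≤
      |(1 - |(l' : ℝ) - (l : ℝ)| / ((N : ℝ) + 1)) -
        (1 - |((l' + 1 : ℕ) : ℝ) - (l : ℝ)| / ((N : ℝ) + 1))| := by
    unfold hat
    exact abs_max_sub_max_le_abs _ _ _
  have h2 : (1 - |(l' : ℝ) - (l : ℝ)| / ((N : ℝ) + 1)) -
        (1 - |((l' + 1 : ℕ) : ℝ) - (l : ℝ)| / ((N : ℝ) + 1)) =
      (|((l' + 1 : ℕ) : ℝ) - (l : ℝ)| - |(l' : ℝ) - (l : ℝ)|) / ((N : ℝ) + 1) := by ring
  rw [h2, abs_div, abs_of_pos hW] at h1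
  have h3 : |(|((l' + 1 : ℕ) : ℝ) - (l : ℝ)| - |(l' : ℝ) - (l : ℝ)|)| ≤ 1 := by
    refine (abs_abs_sub_abs_le_abs_sub _ _).trans ?_
    push_cast
    have : (l' : ℝ) + 1 - (l : ℝ) - ((l' : ℝ) - (l : ℝ)) = 1 := by ring
    rw [this, abs_one]
  calc ((N : ℝ) + 1) * |hat N l l' - hat N l (l' + 1)|
      ≤ ((N : ℝ) + 1) * (|(|((l' + 1 : ℕ) : ℝ) - (l : ℝ)| - |(l' : ℝ) - (l : ℝ)|)| /
          ((N : ℝ) + 1)) := mul_le_mul_of_nonneg_left h1 hW.le
    _ = |(|((l' + 1 : ℕ) : ℝ) - (l : ℝ)| - |(l' : ℝ) - (l : ℝ)|)| := by field_simp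
    _ ≤ 1 := h3

lemma hat_eq_zero (N l l' : ℕ) (h : l + N + 1 ≤ l') : hat N l l' = 0 := by
  unfold hat
  rw [max_eq_right]
  have h1 : (l : ℝ) + N + 1 ≤ (l' : ℝ) := by exact_mod_cast h
  have hW : (0 : ℝ) < (N : ℝ) + 1 := by positivity
  have h2 : 1 ≤ |(l' : ℝ) - (l : ℝ)| / ((N : ℝ) + 1) := by
    rw [le_div_iff₀ hW, one_mul]
    exact le_trans (by linarith) (le_abs_self _)
  linarith

/-- the hat is nonzero at most at one station -/
lemma hat_station {N l j j' : ℕ} (h : hat N l (2 * (N + 1) * j) ≠ 0)
    (h' : hat N l (2 * (N + 1) * j') ≠ 0) : j = j' := by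
  have key : ∀ j : ℕ, hat N l (2 * (N + 1) * j) ≠ 0 →
      |2 * ((N : ℝ) + 1) * (j : ℝ) - (l : ℝ)| < (N : ℝ) + 1 := by
    intro j hj
    by_contra hcon
    push Not at hcon
    apply hj
    unfold hat
    rw [max_eq_right]
    have hW : (0 : ℝ) < (N : ℝ) + 1 := by positivity
    push_cast
    have h2 : 1 ≤ |2 * ((N : ℝ) + 1) * (j : ℝ) - (l : ℝ)| / ((N : ℝ) + 1) := by
      rw [le_div_iff₀ hW, one_mul]; exact hcon
    linarith
  have h1 := abs_lt.1 (key j h)
  have h2 := abs_lt.1 (key j' h')
  have hW : (0 : ℝ) < (N : ℝ) + 1 := by positivity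
  by_contra hne
  rcases lt_or_gt_of_ne hne with h3 | h3
  · have h4 : (j : ℝ) + 1 ≤ (j' : ℝ) := by exact_mod_cast h3
    nlinarith [h1.1, h1.2, h2.1, h2.2, mul_le_mul_of_nonneg_left h4 hW.le]
  · have h4 : (j' : ℝ) + 1 ≤ (j : ℝ) := by exact_mod_cast h3
    nlinarith [h1.1, h1.2, h2.1, h2.2, mul_le_mul_of_nonneg_left h4 hW.le]

section
variable {Ω : Type} [LinearOrder Ω]

open Classical in
/-- finitely supported functions on the non-limit vertices are in `SS` -/
lemma fin_mem_SS (D : LD Ω) (F : Finset (Vx Ω)) (f : Vx Ω → ℝ) (h0 : ∀ v, v ∉ F → f v = 0)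
    (hL : ∀ v, Lim v → f v = 0) : f ∈ D.SS := by
  have hf : f = ∑ v ∈ F.filter (fun v => ¬ Lim v), f v • (fun w : Vx Ω => if w = v then (1 : ℝ) else 0) := by
    funext w
    rw [Finset.sum_apply]
    simp only [Pi.smul_apply, smul_eq_mul]
    by_cases hw : w ∈ F.filter (fun v => ¬ Lim v)
    · rw [Finset.sum_eq_single w]
      · simp
      · intro b _ hb
        rw [if_neg (Ne.symm hb), mul_zero]
      · intro h; exact absurd hw h
    · rw [Finset.sum_eq_zero]
      · rw [Finset.mem_filter, not_and, not_not] at hw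
        by_cases hwF : w ∈ F
        · exact hL w (hw hwF)
        · exact h0 w hwF
      · intro b hb
        rw [if_neg, mul_zero]
        rintro rfl
        exact hw hb
  rw [hf]
  apply Submodule.sum_mem
  intro v hv
  apply Submodule.smul_mem
  apply Submodule.subset_span
  left
  exact ⟨v, (Finset.mem_filter.1 hv).2, rfl⟩

open Classical in
/-- the hat function on the vertices -/
noncomputable def hatV (D : LD Ω) (N : ℕ) (β : Ω) (l : ℕ) (v : Vx Ω) : ℝ :=
  if v.1 = N ∧ v.2.1 = β then hat N l v.2.2
  else if NonMin β then hat N l 0 * D.G N β v else 0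

lemma G_link (D : LD Ω) (N : ℕ) (β : Ω) (N' : ℕ) (β' : Ω) (l' : ℕ) :
    ((N' : ℝ) + 1) * |D.G N β (N', β', l') - D.G N β (N', β', l' + 1)| ≤ 1 := by
  classical
  obtain ⟨c, hc⟩ : ∃ c : ℕ → ℝ, c = fun j => if N' = N ∧ D.InLad β (β', j) then (1 : ℝ) else 0 :=
    ⟨_, rfl⟩
  have key : ∀ l', D.G N β (N', β', l') = c (near N' l') * tent N' l' := by
    intro l'
    rw [hc]
    unfold LD.G
    by_cases h : N' = N ∧ D.InLad β (β', near N' l')
    · rw [if_pos (show ((N', β', l') : Vx Ω).1 = N ∧ D.InLad β (ns ((N', β', l') : Vx Ω)) from h)]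
      simp only
      rw [if_pos h, one_mul]
    · rw [if_neg (show ¬ (((N', β', l') : Vx Ω).1 = N ∧ D.InLad β (ns ((N', β', l') : Vx Ω)))
        from h)]
      simp only
      rw [if_neg h, zero_mul]
  rw [key, key]
  apply tent_link
  intro j
  rw [hc]
  simp only
  split_ifs <;> simp

/-- nodes of the ladder `β` on the ladder `β'` -/
lemma inLad_lad_iff (D : LD Ω) {β β' : Ω} (hβ : NonMin β) (hβ' : NonMin β') (a : ℕ) :
    D.InLad β (D.lad β' a) ↔ D.lad β' a = D.lad β a := by
  constructor
  · rintro (h | ⟨a', h⟩)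
    · have := D.lad_pos β' hβ' a
      rw [h] at this
      simp at this
    · have h1 := (D.lad_tree β' β hβ' hβ a a' h).1
      rw [← h1] at h
      exact h
  · intro h
    exact Or.inr ⟨a, h⟩

lemma G_st (D : LD Ω) (N : ℕ) (β : Ω) (s : Ω × ℕ) [Decidable (D.InLad β s)] :
    D.G N β (st N s) = if D.InLad β s then 1 else 0 := by
  unfold LD.G
  rw [ns_st]
  have h1 : (st N s : Vx Ω).1 = N := rfl
  have h2 : (st N s : Vx Ω).2.2 = 2 * (N + 1) * s.2 := rfl
  by_cases h : D.InLad β s
  · rw [if_pos ⟨h1, h⟩, if_pos h, h1, h2, tent_station]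
  · rw [if_neg (fun hh => h hh.2), if_neg h]

lemma hatV_mem (D : LD Ω) (N : ℕ) (β : Ω) (l : ℕ) : hatV D N β l ∈ D.SS := by
  classical
  set F : Finset (Vx Ω) := (Finset.range (l + 2 * (N + 1) + 1)).image (fun l' => (N, β, l')) with hF
  have hmemF : ∀ v : Vx Ω, v ∉ F → v.1 = N → v.2.1 = β → l + 2 * (N + 1) + 1 ≤ v.2.2 := by
    intro v hv h1 h2
    by_contra hcon
    apply hv
    rw [hF, Finset.mem_image]
    refine ⟨v.2.2, Finset.mem_range.2 (by omega), ?_⟩
    obtain ⟨a, b, c⟩ := v
    simp only at h1 h2
    subst h1; subst h2; rfl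
  by_cases hβ : NonMin β
  · have e : hatV D N β l = hat N l 0 • D.G N β + (hatV D N β l - hat N l 0 • D.G N β) := by
      abel
    rw [e]
    apply Submodule.add_mem
    · apply Submodule.smul_mem
      exact Submodule.subset_span (Or.inr ⟨N, β, hβ, rfl⟩)
    · apply fin_mem_SS D F
      · intro v hv
        simp only [Pi.sub_apply, Pi.smul_apply, smul_eq_mul]
        unfold hatV
        by_cases h : v.1 = N ∧ v.2.1 = β
        · rw [if_pos h]
          have h3 := hmemF v hv h.1 h.2
          rw [hat_eq_zero _ _ _ (by omega)]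
          have h4 : D.G N β v = 0 := by
            unfold LD.G
            rw [if_neg]
            rintro ⟨-, h5⟩
            unfold ns at h5
            rcases h5 with h5 | ⟨a, h5⟩
            · have h6 : near v.1 v.2.2 = 0 := by
                have := congrArg Prod.snd h5
                exact this
              have h7 := near_lt h6
              rw [h.1] at h7
              omega
            · have h6 : v.2.1 = (D.lad β a).1 := by rw [← h5]
              have h7 := D.lad_lt β hβ a
              rw [← h6, h.2] at h7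
              exact lt_irrefl _ h7
          rw [h4]; ring
        · rw [if_neg h, if_pos hβ]; ring
      · intro v hv
        simp only [Pi.sub_apply, Pi.smul_apply, smul_eq_mul]
        unfold hatV
        by_cases h : v.1 = N ∧ v.2.1 = β
        · rw [if_pos h]
          obtain ⟨a, b, c⟩ := v
          obtain ⟨h1, h2⟩ := h
          simp only at h1 h2
          have h3 : c = 0 := hv.1
          subst h1; subst h2; subst h3
          rw [LD.G_self]; ring
        · rw [if_neg h, if_pos hβ]; ring
  · apply fin_mem_SS D F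
    · intro v hv
      unfold hatV
      by_cases h : v.1 = N ∧ v.2.1 = β
      · rw [if_pos h]
        have h3 := hmemF v hv h.1 h.2
        exact hat_eq_zero _ _ _ (by omega)
      · rw [if_neg h, if_neg hβ]
    · intro v hv
      unfold hatV
      by_cases h : v.1 = N ∧ v.2.1 = β
      · exfalso
        apply hβ
        rw [← h.2]
        exact hv.2
      · rw [if_neg h, if_neg hβ]

lemma hatV_nice (D : LD Ω) (N : ℕ) (β : Ω) (l : ℕ) : D.Nice 4 (hatV D N β l) where
  pt v := by
    unfold hatV
    have h1 := hat_nonneg N l v.2.2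
    have h2 := hat_le_one N l v.2.2
    have h3 := hat_nonneg N l 0
    have h4 := hat_le_one N l 0
    have h5 := LD.G_nonneg (D := D) N β v
    have h6 := LD.G_le_one (D := D) N β v
    split_ifs
    · rw [abs_of_nonneg h1]; linarith
    · rw [abs_of_nonneg (mul_nonneg h3 h5)]
      nlinarith
    · simp
  link N' β' l' := by
    unfold hatV
    simp only
    by_cases h : N' = N ∧ β' = β
    · rw [if_pos h, if_pos h, h.1]
      have := hat_link N l l'
      linarith
    · rw [if_neg h, if_neg h]
      by_cases hβ : NonMin β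
      · rw [if_pos hβ, if_pos hβ, ← mul_sub, abs_mul, abs_of_nonneg (hat_nonneg N l 0)]
        have h1 := G_link D N β N' β' l'
        have h2 := hat_nonneg N l 0
        have h3 := hat_le_one N l 0
        set u := |D.G N β (N', β', l') - D.G N β (N', β', l' + 1)|
        have h4 : 0 ≤ ((N' : ℝ) + 1) * u := by positivity
        calc ((N' : ℝ) + 1) * (hat N l 0 * u) = hat N l 0 * (((N' : ℝ) + 1) * u) := by ring
          _ ≤ 1 * 1 := mul_le_mul h3 h1 h4 zero_le_one
          _ ≤ 4 := by norm_num
      · rw [if_neg hβ, if_neg hβ]; simp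
  path N' β' hβ' := by
    classical
    by_cases hN : N' = N
    · subst hN
      -- decompose
      set x1 : ℕ → ℝ := fun a => if (D.lad β' a).1 = β then
        hat N' l (2 * (N' + 1) * (D.lad β' a).2) else 0 with hx1
      set x2 : ℕ → ℝ := fun a => if NonMin β ∧ D.InLad β (D.lad β' a) then (1 : ℝ) else 0 with hx2
      have hsum : (fun a => hatV D N' β l (st N' (D.lad β' a))) =
          fun a => x1 a + hat N' l 0 * x2 a := by
        funext a
        unfold hatV
        have e1 : (st N' (D.lad β' a) : Vx Ω).1 = N' := rfl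
        have e2 : (st N' (D.lad β' a) : Vx Ω).2.1 = (D.lad β' a).1 := rfl
        have e3 : (st N' (D.lad β' a) : Vx Ω).2.2 = 2 * (N' + 1) * (D.lad β' a).2 := rfl
        rw [e1, e2, e3]
        simp only [hx1, hx2]
        by_cases h : (D.lad β' a).1 = β
        · rw [if_pos ⟨trivial, h⟩, if_pos h, if_neg]
          · ring
          · rintro ⟨hβ, h1⟩
            rw [inLad_lad_iff D hβ hβ'] at h1
            have h2 := D.lad_lt β hβ a
            rw [← h1, h] at h2
            exact lt_irrefl _ h2
        · rw [if_neg (fun hh => h hh.2), if_neg h, zero_add]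
          by_cases hβ : NonMin β
          · rw [if_pos hβ, G_st]
            by_cases h1 : D.InLad β (D.lad β' a)
            · rw [if_pos h1, if_pos ⟨hβ, h1⟩]
            · rw [if_neg h1, if_neg (fun hh => h1 hh.2)]
          · rw [if_neg hβ, if_neg (fun hh => hβ hh.1), mul_zero]
      rw [hsum]
      have hv1 : TVle 2 x1 := by
        by_cases hex : ∃ j, x1 j ≠ 0
        · obtain ⟨j, hj⟩ := hex
          have : TVle (2 * 1) x1 := by
            apply TVle_single j 1
            · intro m hm
              by_contra hne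
              apply hm
              simp only [hx1] at hj hne
              by_cases c1 : (D.lad β' j).1 = β
              · by_cases c2 : (D.lad β' m).1 = β
                · rw [if_pos c1] at hj
                  rw [if_pos c2] at hne
                  exact (D.lad_strict β' hβ').injective (hat_station hne hj)
                · rw [if_neg c2] at hne; exact absurd rfl hne
              · rw [if_neg c1] at hj; exact absurd rfl hj
            · simp only [hx1]
              split_ifs
              · rw [abs_of_nonneg (hat_nonneg _ _ _)]; exact hat_le_one _ _ _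
              · simp
          simpa using this
        · push Not at hex
          have : x1 = fun _ => 0 := funext hex
          rw [this]
          exact (TVle.const 0).mono (by norm_num)
      have hv2 : TVle 1 x2 := by
        have : TVle (1 - 0) x2 := by
          apply TVle.of_antitone
          · intro a b hab
            simp only [hx2]
            by_cases hb : NonMin β ∧ D.InLad β (D.lad β' b)
            · have ha : NonMin β ∧ D.InLad β (D.lad β' a) := by
                refine ⟨hb.1, ?_⟩
                have h1 := hb.2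
                rw [inLad_lad_iff D hb.1 hβ'] at h1 ⊢
                exact (D.lad_tree β' β hβ' hb.1 b b h1).2 a hab
              rw [if_pos hb, if_pos ha]
            · rw [if_neg hb]
              split_ifs <;> norm_num
          · intro m; simp only [hx2]; split_ifs <;> norm_num
          · intro m; simp only [hx2]; split_ifs <;> norm_num
        simpa using this
      refine (hv1.add (hv2.smul (hat N' l 0))).mono ?_
      rw [abs_of_nonneg (hat_nonneg _ _ _)]
      have := hat_le_one N' l 0
      linarith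
    · have hzero : (fun a => hatV D N β l (st N' (D.lad β' a))) = fun _ => 0 := by
        funext a
        unfold hatV
        have e1 : (st N' (D.lad β' a) : Vx Ω).1 = N' := rfl
        rw [if_neg (fun hh => hN (e1 ▸ hh.1))]
        have e2 : D.G N β (st N' (D.lad β' a)) = 0 := by
          unfold LD.G
          rw [if_neg (fun hh => hN (e1 ▸ hh.1))]
        rw [e2]
        simp
      rw [hzero]
      exact (TVle.const 0).mono (by norm_num)

end

theorem stmt_Hat : Stmt_Hat := by
  intro Ω _ D N β l
  refine ⟨hatV D N β l, hatV_mem D N β l, hatV_nice D N β l, ?_, ?_⟩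
  · unfold hatV
    simp [hat_self]
  · unfold hatV
    simp only [and_self, if_true]
    exact hat_succ N l

end Pool.Agent.MP156639
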