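import Pool.Agent.Work.MP_156639_an.Basic
import Pool.Agent.Work.MP_156639_an.Interface

/-!
# MP_156639_an : block INT
-/

set_option autoImplicit false

open scoped BigOperators
open Filter Topology

namespace Pool.Agent.MP156639

/-- sums of `(-1)^i` over `[j, K)` -/
lemma sum_alt_diff (K j : ℕ) (hj : j < K) :
    ∑ i ∈ Finset.range K, (if j ≤ i then (-1 : ℝ) ^ i else 0) -
      ∑ i ∈ Finset.range K, (if j + 1 ≤ i then (-1 : ℝ) ^ i else 0) = (-1 : ℝ) ^ j := by
  rw [← Finset.sum_sub_distrib, Finset.sum_eq_single j]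
  · rw [if_pos (le_refl j), if_neg (by omega)]; ring
  · intro i _ hij
    by_cases h : j ≤ i
    · rw [if_pos h, if_pos (by omega)]; ring
    · rw [if_neg h, if_neg (by omega)]; ring
  · intro h
    exact absurd (Finset.mem_range.2 hj) h

theorem stmt_INT (hO1 : Stmt_O1) : Stmt_INT := by
  intro Ω _ D Y _ _ val hval y v z L hz hL n c hn hv hd
  by_cases hL0 : L = 0
  · subst hL0
    refine ⟨id, strictMono_id, ?_⟩
    simp
  have hLpos : 0 < |L| := abs_pos.2 hL0
  have hKpos : (0 : ℝ) < (Kn n : ℝ) := by exact_mod_cast Kn_pos n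
  set δ : ℝ := |L| / (8 * (Kn n : ℝ)) with hδ
  have hδpos : 0 < δ := by positivity
  have hδK : 8 * (Kn n : ℝ) * δ = |L| := by rw [hδ]; field_simp
  obtain ⟨f, hfP, hfr⟩ := exists_seq_of_forall_finset_exists
    (fun x : ℕ × ℕ => |z x.1 - L| ≤ δ ∧ |val (y x.2) (v, x.1) - z x.1| ≤ δ)
    (fun x x' : ℕ × ℕ => x.1 < x'.1 ∧ x.2 < x'.2 ∧ |val (y x.2) (v, x'.1)| ≤ δ ∧
      |val (y x'.2) (v, x.1) - z x.1| ≤ δ) (by
    intro s _
    have h1 : ∀ᶠ m in atTop, |z m - L| ≤ δ := by
      have := (Metric.tendsto_nhds.1 hL) δ hδpos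
      filter_upwards [this] with m hm
      rw [Real.dist_eq] at hm
      exact hm.le
    have h2 : ∀ᶠ m in atTop, ∀ x ∈ s, x.1 < m ∧ |val (y x.2) (v, m)| ≤ δ := by
      rw [Finset.eventually_all]
      intro x _
      refine (eventually_gt_atTop x.1).and ?_
      obtain ⟨M, hM⟩ := hO1 Ω D Y val hval (y x.2) δ hδpos
      filter_upwards [eventually_ge_atTop M] with m hm
      exact hM m hm v
    obtain ⟨m, hm1, hm2⟩ := (h1.and h2).exists
    have hlim : ∀ m', ∀ᶠ k in atTop, |val (y k) (v, m') - z m'| ≤ δ := by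
      intro m'
      have := (Metric.tendsto_nhds.1 (hz m')) δ hδpos
      filter_upwards [this] with k hk
      rw [Real.dist_eq] at hk
      exact hk.le
    have h3 : ∀ᶠ k in atTop, ∀ x ∈ s, x.2 < k ∧ |val (y k) (v, x.1) - z x.1| ≤ δ := by
      rw [Finset.eventually_all]
      intro x _
      exact (eventually_gt_atTop x.2).and (hlim x.1)
    obtain ⟨k, hk1, hk2⟩ := ((hlim m).and h3).exists
    exact ⟨(m, k), ⟨hm1, hk1⟩, fun x hx => ⟨(hm2 x hx).1, (hk2 x hx).1, (hm2 x hx).2,
      (hk2 x hx).2⟩⟩)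
  set ms : ℕ → ℕ := fun j => (f j).1 with hms
  set k : ℕ → ℕ := fun j => (f j).2 with hk
  have hmsmono : StrictMono ms := strictMono_nat_of_lt_succ fun i => (hfr i (i + 1) (by omega)).1
  have hkmono : StrictMono k := strictMono_nat_of_lt_succ fun i => (hfr i (i + 1) (by omega)).2.1
  refine ⟨k, hkmono, ?_⟩
  set g := altsum y k (Kn n) with hg
  -- the values of `g` at the points `(v, m_j)`
  have hval1 : ∀ i j, |val (y (k i)) (v, ms j) - (if j ≤ i then L else 0)| ≤ 2 * δ := by
    intro i j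
    by_cases hji : j ≤ i
    · rw [if_pos hji]
      have h1 : |val (y (k i)) (v, ms j) - z (ms j)| ≤ δ := by
        rcases lt_or_eq_of_le hji with h | h
        · exact (hfr j i h).2.2.2
        · subst h; exact (hfP j).2
      have h2 : |z (ms j) - L| ≤ δ := (hfP j).1
      calc |val (y (k i)) (v, ms j) - L|
          = |(val (y (k i)) (v, ms j) - z (ms j)) + (z (ms j) - L)| := by ring_nf
        _ ≤ _ := abs_add_le _ _
        _ ≤ 2 * δ := by linarith
    · rw [if_neg hji, sub_zero]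
      have := (hfr i j (by omega)).2.2.1
      linarith
  have hgval : ∀ j, |val g (v, ms j) -
      L * ∑ i ∈ Finset.range (Kn n), (if j ≤ i then (-1 : ℝ) ^ i else 0)| ≤
        (Kn n : ℝ) * (2 * δ) := by
    intro j
    rw [hg, val_altsum, Finset.mul_sum, ← Finset.sum_sub_distrib]
    refine (Finset.abs_sum_le_sum_abs _ _).trans ?_
    calc ∑ i ∈ Finset.range (Kn n), |(-1 : ℝ) ^ i * val (y (k i)) (v, ms j) -
          L * (if j ≤ i then (-1 : ℝ) ^ i else 0)| ≤ ∑ i ∈ Finset.range (Kn n), 2 * δ := by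
          apply Finset.sum_le_sum
          intro i _
          have e : (-1 : ℝ) ^ i * val (y (k i)) (v, ms j) - L * (if j ≤ i then (-1 : ℝ) ^ i else 0)
              = (-1 : ℝ) ^ i * (val (y (k i)) (v, ms j) - (if j ≤ i then L else 0)) := by
            split_ifs <;> ring
          rw [e, abs_mul, abs_pow, abs_neg, abs_one, one_pow, one_mul]
          exact hval1 i j
      _ = (Kn n : ℝ) * (2 * δ) := by simp
  have hdiff : ∀ j < Kn n, |L| / 2 ≤ |val g (v, ms (j + 1)) - val g (v, ms j)| := by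
    intro j hj
    have h1 := hgval j
    have h2 := hgval (j + 1)
    have h3 := sum_alt_diff (Kn n) j hj
    set A := ∑ i ∈ Finset.range (Kn n), (if j ≤ i then (-1 : ℝ) ^ i else 0)
    set B := ∑ i ∈ Finset.range (Kn n), (if j + 1 ≤ i then (-1 : ℝ) ^ i else 0)
    have h4 : |L * A - L * B| = |L| := by
      rw [← mul_sub, h3, abs_mul, abs_pow, abs_neg, abs_one, one_pow, mul_one]
    have h5 : L * A - L * B = -(val g (v, ms (j + 1)) - val g (v, ms j)) +
        (val g (v, ms (j + 1)) - L * B) - (val g (v, ms j) - L * A) := by ring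
    have h6 : |L| ≤ |val g (v, ms (j + 1)) - val g (v, ms j)| +
        |val g (v, ms (j + 1)) - L * B| + |val g (v, ms j) - L * A| := by
      rw [← h4, h5]
      refine (abs_sub _ _).trans ?_
      gcongr
      refine (abs_add_le _ _).trans ?_
      rw [abs_neg]
    have h7 : (Kn n : ℝ) * (2 * δ) + (Kn n : ℝ) * (2 * δ) = |L| / 2 := by
      rw [← hδK]; ring
    linarith
  have hfib := (hval.bd g).fib n c hn v hv hd ms hmsmono.monotone
  have hlow : (Kn n : ℝ) * (|L| / 2) ≤ ‖g‖ * (th n : ℝ) := by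
    refine le_trans ?_ hfib
    calc (Kn n : ℝ) * (|L| / 2) = ∑ i ∈ Finset.range (Kn n), |L| / 2 := by simp
      _ ≤ _ := Finset.sum_le_sum fun i hi => hdiff i (Finset.mem_range.1 hi)
  rw [Kn_eq_real] at hlow
  have hth := one_le_th n
  have h5 : (|L| / 2 * (Rn n : ℝ)) * (th n : ℝ) ≤ ‖g‖ * (th n : ℝ) := by nlinarith
  exact le_of_mul_le_mul_right h5 (by linarith)

end Pool.Agent.MP156639
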