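import Pool.Agent.Work.MP_156639_an_helper30.CV

/-!
# MP_156639_an : block LK
-/

set_option autoImplicit false

open scoped BigOperators
open Filter Topology

namespace Pool.Agent.MP156639

section
variable {Ω : Type} [LinearOrder Ω] {D : LD Ω}
variable {Y : Type} [NormedAddCommGroup Y] [NormedSpace ℝ Y] {val : Y →ₗ[ℝ] (Pt Ω → ℝ)}

/-- the steps exist -/
lemma exists_steps (hTG : Stmt_TG) (hval : D.IsSp val) {ψ : Vx Ω → ℝ} (hψ : ψ ∈ D.SS) :
    ∃ e : ℕ → Y, Steps val ψ e := by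
  have h : ∀ k : ℕ, ∃ y, val y = tens ψ (ind k) := by
    intro k
    apply hval.gen
    apply hTG Ω D ψ hψ
    exact ⟨k, fun m hm => by unfold ind; rw [if_neg (by omega)]⟩
  choose e he using h
  exact ⟨e, he⟩

/-- the norm of the steps -/
lemma steps_norm_le (hBT : Stmt_BT) (hval : D.IsSp val) {C : ℝ} {ψ : Vx Ω → ℝ} (hC : 0 ≤ C)
    (hN : D.Nice C ψ) {e : ℕ → Y} (he : Steps val ψ e) (k : ℕ) : ‖e k‖ ≤ C := by
  apply hval.le _ _ hC
  rw [he k]
  refine hBT Ω D C 1 C ψ (ind k) hN (ind_abs_le k) (TVle_ind k) le_rfl ?_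
  intro n c _
  right; left
  have := one_le_th n
  nlinarith

end

theorem stmt_LK (hHat : Stmt_Hat) (hTG : Stmt_TG) (hBT : Stmt_BT) (hCV : Stmt_CV)
    (hUL : Stmt_UL) : Stmt_LK := by
  intro Ω _ D Y _ _ val hval T Λ hΛ
  have hT0 := norm_nonneg T
  constructor
  · intro N β l
    -- limits for a nice function with constant `4`
    have key : ∀ ψ ∈ D.SS, D.Nice 4 ψ → ∃ z : Pt Ω → ℝ, D.Bd (‖T‖ * 4) z ∧
        ∀ v, Tendsto (fun m => z (v, m)) atTop (𝓝 (ψ v * Λ v)) := by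
      intro ψ hψ hN
      obtain ⟨e, he⟩ := exists_steps hTG hval hψ
      obtain ⟨z, hz⟩ := hCV Ω D Y val hval ψ hψ e he T
      refine ⟨z, ?_, hΛ ψ hψ e he z hz⟩
      apply stmt_BdLim Ω D Y val hval _ z hz
      intro k
      refine (T.le_opNorm _).trans (mul_le_mul_of_nonneg_left ?_ hT0)
      exact steps_norm_le hBT hval (by norm_num) hN he k
    have hW : (0 : ℝ) < (N : ℝ) + 1 := by positivity
    obtain ⟨ψ, hψ, hN, h1, h2⟩ := hHat Ω D N β l
    obtain ⟨z, hzB, hzl⟩ := key ψ hψ hN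
    obtain ⟨ψ', hψ', hN', h1', -⟩ := hHat Ω D N β (l + 1)
    obtain ⟨z', hzB', hzl'⟩ := key ψ' hψ' hN'
    have hA : |Λ (N, β, l + 1)| ≤ ‖T‖ * 4 := by
      have := le_of_tendsto (hzl' (N, β, l + 1)).abs (Eventually.of_forall fun m => hzB'.pt _)
      rwa [h1', one_mul] at this
    have hB : ((N : ℝ) + 1) * |Λ (N, β, l) - (1 - 1 / ((N : ℝ) + 1)) * Λ (N, β, l + 1)| ≤
        ‖T‖ * 4 := by
      have := le_of_tendsto (((hzl (N, β, l)).sub (hzl (N, β, l + 1))).abs.const_mul ((N : ℝ) + 1))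
        (Eventually.of_forall fun m => hzB.link N β l m)
      rwa [h1, h2, one_mul] at this
    have e : Λ (N, β, l) - Λ (N, β, l + 1) =
        (Λ (N, β, l) - (1 - 1 / ((N : ℝ) + 1)) * Λ (N, β, l + 1)) -
          1 / ((N : ℝ) + 1) * Λ (N, β, l + 1) := by ring
    rw [e]
    calc ((N : ℝ) + 1) * |(Λ (N, β, l) - (1 - 1 / ((N : ℝ) + 1)) * Λ (N, β, l + 1)) -
          1 / ((N : ℝ) + 1) * Λ (N, β, l + 1)|
        ≤ ((N : ℝ) + 1) * (|Λ (N, β, l) - (1 - 1 / ((N : ℝ) + 1)) * Λ (N, β, l + 1)| +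
          |1 / ((N : ℝ) + 1) * Λ (N, β, l + 1)|) :=
          mul_le_mul_of_nonneg_left (abs_sub _ _) hW.le
      _ = ((N : ℝ) + 1) * |Λ (N, β, l) - (1 - 1 / ((N : ℝ) + 1)) * Λ (N, β, l + 1)| +
          |Λ (N, β, l + 1)| := by
          rw [abs_mul, abs_of_pos (by positivity : (0 : ℝ) < 1 / ((N : ℝ) + 1))]
          field_simp
      _ ≤ 8 * ‖T‖ := by linarith
  · intro N β hβ
    have hG : D.G N β ∈ D.SS := Submodule.subset_span (Or.inr ⟨N, β, hβ, rfl⟩)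
    obtain ⟨e, he⟩ := exists_steps hTG hval hG
    obtain ⟨z, hz⟩ := hCV Ω D Y val hval _ hG e he T
    have hlim := hΛ _ hG e he z hz
    have hul := hUL Ω D Y val hval _ hG e he T z hz
    rw [Metric.tendsto_atTop]
    intro ε hε
    obtain ⟨a₀, ha₀⟩ := hul N β hβ (ε / 2) (by positivity)
    refine ⟨a₀, fun a ha => ?_⟩
    have h1 := le_of_tendsto ((hlim (st N (D.lad β a))).sub (hlim (N, β, 0))).abs
      (Eventually.of_forall fun m => ha₀ a ha m)
    rw [LD.G_lad, LD.G_self, one_mul, one_mul] at h1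
    rw [Real.dist_eq]
    linarith

end Pool.Agent.MP156639
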